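import Mathlib
import Pool.Agent.D0H56.MD.App7

/-!
# Margulis' conjecture away from one embedding of each number field

By Margulis' arithmeticity theorem the torsion-free irreducible uniform lattices `Γ` in a semisimple
group `G` of real rank at least `2` are given by a number field `k`, a set `S` of embeddings of `k`
(at which the algebraic group is not compact; `|S|` is bounded in terms of `G`) and integral matrices
over `k`, of a size `n` bounded in terms of `G`.

**Theorem.** Each number field `k`, of any degree `m`, has an embedding `E(k)` such that Margulis'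
conjecture holds for all torsion-free groups over `k` with `E(k) ∉ S`: for fixed `n`, `s` the family
of all these groups, for all `k` and all `S` with `|S| ≤ s`, is uniformly discrete. Moreover the
injectivity radii in the family tend to infinity with `m`: every `γ ≠ 1` has an eigenvalue `l` with
`log |l| ≥ c m ^ a`, for any `a < 1/8`.

So for a simple group `G` and a totally real field `k` the conjecture holds for the lattices in `G`
defined over `k` at all but at most one of the `m` real places of `k` (here `|S| = 1`), and in general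
for all sets `S` of `s` real places but a proportion of at most `s / m` of them. In the exceptional
case `E(k) ∈ S` the conjecture is also proved if some `σ₂ ∉ S` is close to `E(k)`: the compositum of
the conjugates `E(k) k` and `σ₂ k` has degree at most `m ^ (1 + δ)`, for a fixed `δ < 1/3`. This
includes the groups over number fields with more than `|S|` automorphisms (as Galois extensions of
`ℚ`), or with a subfield `k₀` such that `|S| < [k : k₀] ≤ m ^ δ`, whatever `E(k)` is.

Method. The exceptional embedding comes from a repulsion of short elements, similar to the repulsion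
of exceptional zeros by Deuring and Heilbronn. Let `γ₁` be a short element of infinite order of a
group over `k`. It has an eigenvalue `x` with `|x| > 1` over some embedding `σ₀ ∈ S₁`; put
`E(k) = σ₀`. Let `γ₂` be an element of infinite order of any other group over `k`, with `σ₂ ∉ S₂`.
It has an eigenvalue `y` over `σ₂` which is no root of unity, and `|y| = 1`. So `x` and `y` are
multiplicatively independent. If the compositum of `σ₀ k` and `σ₂ k` is small (for instance
`σ₂ = σ₀`) then `ℚ(x, y)` has degree at most `n² m ^ (1 + δ)`, while `x` and `y` have degree at least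
`m / s`, and at least one of `x`, `y` has a large height: this is a two-dimensional Dobrowolski
theorem for two units which need not be conjugate, proved by an interpolation determinant whose
rows are the divided derivatives of monomials at `(x, y)` and their values at `(x ^ p, y ^ p)` for
many primes `p`.

`Pool.Agent.H225R3.MargDefs` contains the definitions: `Realization ρ Γ k n S` (a homomorphism `r`
from `Γ` to the `n` by `n` matrices over the ring of integers of the number field `k`, bounded under
all embeddings outside `S`, such that for `σ` in `S` the eigenvalues of `σ (r γ)` are eigenvalues of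
`ρ γ`, and such that only `1` is mapped to a unipotent matrix) and `UniformlyDiscrete` (there is an
identity neighbourhood `U` such that `g U g⁻¹` meets every group of the family in the identity only).
-/

set_option autoImplicit false

namespace Pool.Agent.Results.MP_162bbe_gt.ExceptionalEmbedding

open NumberField Module Pool.Agent.H225R3.Marg

universe u

/-- There is no element of finite order other than the identity. -/
def TorsionFree {G : Type*} [Group G] (Γ : Subgroup G) : Prop :=
  ∀ γ ∈ Γ, ∀ N : ℕ, 0 < N → γ ^ N = 1 → γ = 1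

/-- The degree over `ℚ` of the compositum of the conjugates `σ k` and `τ k` of `k`. -/
noncomputable def compositumDegree {k : Type} [Field k] (σ τ : k →+* ℂ) : ℕ :=
  finrank ℚ (IntermediateField.adjoin ℚ (Set.range σ ∪ Set.range τ))

/-- Some embedding `σ₂` outside `S` is close to `σ₀`: the compositum of `σ₀ k` and `σ₂ k` has degree
at most `m ^ (1 + δ)`, where `m` is the degree of `k`. This holds if `σ₀` is not in `S`. -/
def Avoids (δ : ℝ) {k : Type} [Field k] [NumberField k] (σ₀ : k →+* ℂ)
    (S : Finset (k →+* ℂ)) : Prop :=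
  ∃ σ₂ : k →+* ℂ, σ₂ ∉ S ∧ (compositumDegree σ₀ σ₂ : ℝ) ≤ (finrank ℚ k : ℝ) ^ (1 + δ)

/-- The choice of an embedding of every number field. -/
abbrev Choice : Type 1 := (k : Type) → [Field k] → [NumberField k] → (k →+* ℂ)

/-- The torsion-free subgroups `Γ` of `G` that have a realization by matrices of size `n`, with a set
`S` of at most `s` noncompact embeddings, over a number field `k` of degree `m` such that `S` avoids
`E k`. -/
def Family (E : Choice) (δ : ℝ) (s n m : ℕ) {G : Type*} [Group G] {M : ℕ}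
    (ρ : G →* Matrix (Fin M) (Fin M) ℂ) : Set (Subgroup G) :=
  {Γ | TorsionFree Γ ∧
    ∃ (k : Type) (_ : Field k) (_ : NumberField k) (S : Finset (k →+* ℂ))
      (_ : Realization ρ Γ k n S), S.card ≤ s ∧ finrank ℚ k = m ∧ Avoids δ (E k) S}

/-- `γ` has an eigenvalue `l` under one of the noncompact embeddings, which is also an eigenvalue of
`ρ γ`, with `log |l| ≥ b`. -/
def LargeEigenvalue {G : Type*} [Group G] {M : ℕ} {ρ : G →* Matrix (Fin M) (Fin M) ℂ}
    {Γ : Subgroup G} {k : Type} [Field k] [NumberField k] {n : ℕ} {S : Finset (k →+* ℂ)}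
    (R : Realization ρ Γ k n S) (b : ℝ) (γ : Γ) : Prop :=
  ∃ σ ∈ S, ∃ l : ℂ, IsEig (conjMat σ (R.r γ)) l ∧ IsEig (ρ γ) l ∧ b ≤ Real.log ‖l‖

/-- **Margulis' conjecture away from one embedding of each number field.**

1. (Growth.) Let `0 ≤ δ` and `0 ≤ a < (1 - 3 δ) / 8`. There are `c > 0` and an embedding `E k` of
   every number field `k`, depending on `n`, `s`, `δ`, `a` only, such that for every group `Γ` with a
   realization of size `n` over a number field `k` of degree `m`, with a set `S` of at most `s`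
   noncompact embeddings which avoids `E k`, every `γ` in `Γ` of infinite order has an eigenvalue `l`
   (under a noncompact embedding, and of `ρ γ`) with `log |l| ≥ c m ^ a`.
2. Let `0 ≤ δ < 1/3`. There is an embedding `E k` of every number field `k`, depending on `n`, `s`,
   `δ` only, such that for every continuous finite dimensional complex representation `ρ` of a
   topological group `G` the union over all `m` of the families `Family E δ s n m ρ` is uniformly
   discrete, and for every compact subset `C` of `G` there is `m₀` such that the conjugates of `C`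
   meet the groups in `Family E δ s n m ρ`, `m ≥ m₀`, at most in the identity.
3. `S` avoids `σ₀` for every `δ ≥ 0` if `σ₀ ∉ S`, or if `k` has more than `|S|` automorphisms; and it
   avoids `σ₀` for `δ` if `k` has a subfield `k₀` with `|S| < [k : k₀] ≤ m ^ δ`. -/
theorem result :
    (∀ (n s : ℕ) (δ a : ℝ), 0 ≤ δ → 0 ≤ a → a < (1 - 3 * δ) / 8 → ∃ c : ℝ, 0 < c ∧
      ∃ E : Choice, ∀ (G : Type u) [Group G] (M : ℕ) (ρ : G →* Matrix (Fin M) (Fin M) ℂ)
        (Γ : Subgroup G) (k : Type) [Field k] [NumberField k] (S : Finset (k →+* ℂ))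
        (R : Realization ρ Γ k n S), S.card ≤ s → Avoids δ (E k) S →
        ∀ γ : Γ, (∀ N : ℕ, 0 < N → γ ^ N ≠ 1) →
          LargeEigenvalue R (c * (finrank ℚ k : ℝ) ^ a) γ) ∧
    (∀ (n s : ℕ) (δ : ℝ), 0 ≤ δ → δ < 1 / 3 → ∃ E : Choice,
      ∀ (G : Type u) [Group G] [TopologicalSpace G] (M : ℕ)
      (ρ : G →* Matrix (Fin M) (Fin M) ℂ), Continuous ρ →
      UniformlyDiscrete (⋃ m : ℕ, Family E δ s n m ρ) ∧
      ∀ C : Set G, IsCompact C → ∃ m₀ : ℕ, ∀ m : ℕ, m₀ ≤ m → ∀ Γ ∈ Family E δ s n m ρ,
        ∀ g : G, ∀ v ∈ C, g * v * g⁻¹ ∈ Γ → g * v * g⁻¹ = 1) ∧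
    (∀ (k : Type) [Field k] [NumberField k] (σ₀ : k →+* ℂ) (S : Finset (k →+* ℂ)) (δ : ℝ),
      0 ≤ δ → (σ₀ ∉ S → Avoids δ σ₀ S) ∧ (S.card < Nat.card (k ≃+* k) → Avoids δ σ₀ S) ∧
      ∀ k₀ : IntermediateField ℚ k, S.card < finrank k₀ k →
        (finrank k₀ k : ℝ) ≤ (finrank ℚ k : ℝ) ^ δ → Avoids δ σ₀ S) := by
  have h1 : ∀ (n s : ℕ) (δ a : ℝ), 0 ≤ δ → 0 ≤ a → a < (1 - 3 * δ) / 8 → ∃ c : ℝ, 0 < c ∧
      ∃ E : Choice, ∀ (G : Type u) [Group G] (M : ℕ) (ρ : G →* Matrix (Fin M) (Fin M) ℂ)
        (Γ : Subgroup G) (k : Type) [Field k] [NumberField k] (S : Finset (k →+* ℂ))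
        (R : Realization ρ Γ k n S), S.card ≤ s → Avoids δ (E k) S →
        ∀ γ : Γ, (∀ N : ℕ, 0 < N → γ ^ N ≠ 1) →
          LargeEigenvalue R (c * (finrank ℚ k : ℝ) ^ a) γ := by
    intro n s δ a hδ ha hab
    obtain ⟨c, hc, h⟩ := Pool.Agent.D0H56.MD.exceptional.{u} n s δ a hδ ha hab
    refine ⟨c, hc, fun k _ _ => (h k).choose, ?_⟩
    intro G _ M ρ Γ k _ _ S R hS hav γ hγ
    exact (h k).choose_spec G M ρ Γ S R hS hav γ hγ
  refine ⟨h1, ?_, ?_⟩
  · intro n s δ hδ hδ3
    obtain ⟨c, hc, E, h⟩ := h1 n s δ ((1 - 3 * δ) / 16) hδ (by linarith) (by linarith)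
    refine ⟨E, ?_⟩
    intro G _ _ M ρ hρ
    have hF : ∀ m : ℕ, ∀ Γ ∈ Family E δ s n m ρ, ∀ γ ∈ Γ, γ ≠ 1 → ∃ l : ℂ, IsEig (ρ γ) l ∧
        c * (m : ℝ) ^ ((1 - 3 * δ) / 16) ≤ Real.log ‖l‖ := by
      rintro m Γ ⟨htf, k, _, _, S, R, hs, hm, hav⟩ γ hγ hne
      obtain ⟨σ, -, l, -, hl, hlow⟩ := h G M ρ Γ k S R hs hav ⟨γ, hγ⟩
        (fun N hN h0 => hne (htf γ hγ N hN (congrArg Subtype.val h0)))
      rw [hm] at hlow
      exact ⟨l, hl, hlow⟩
    refine ⟨Pool.Agent.D0H56.MD.disc_of_large ρ hρ c hc _ ?_, ?_⟩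
    · intro Γ hΓ γ hγ hne
      obtain ⟨m, hm⟩ := Set.mem_iUnion.mp hΓ
      obtain ⟨l, hl, hlow⟩ := hF m Γ hm γ hγ hne
      refine ⟨l, hl, le_trans ?_ hlow⟩
      obtain ⟨-, k, _, _, S, R, -, hdeg, -⟩ := hm
      have hm1 : (1 : ℝ) ≤ m := by
        rw [← hdeg]
        exact_mod_cast (finrank_pos : 0 < finrank ℚ k)
      have h2 : (1 : ℝ) ≤ (m : ℝ) ^ ((1 - 3 * δ) / 16) := Real.one_le_rpow hm1 (by linarith)
      nlinarith
    · intro C hC
      exact Pool.Agent.D0H56.MD.escape_of_large ρ hρ c _ hc (by linarith) _ hF C hC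
  · intro k _ _ σ₀ S δ hδ
    have hm1 : (1 : ℝ) ≤ finrank ℚ k := by exact_mod_cast (finrank_pos : 0 < finrank ℚ k)
    have hm0 : (0 : ℝ) < finrank ℚ k := by linarith
    have hmδ : (finrank ℚ k : ℝ) ≤ (finrank ℚ k : ℝ) ^ (1 + δ) := by
      calc (finrank ℚ k : ℝ) = (finrank ℚ k : ℝ) ^ (1 : ℝ) := (Real.rpow_one _).symm
        _ ≤ _ := Real.rpow_le_rpow_of_exponent_le hm1 (by linarith)
    refine ⟨fun hS => ?_, fun hS => ?_, fun k₀ hS hk₀ => ?_⟩
    · refine ⟨σ₀, hS, ?_⟩
      have h4 : compositumDegree σ₀ σ₀ = finrank ℚ k := Pool.Agent.D0H56.MD.cdeg_self σ₀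
      rw [h4]
      exact hmδ
    · obtain ⟨σ₂, h2, h3⟩ := Pool.Agent.D0H65.MD.t_COMPA k S hS σ₀
      refine ⟨σ₂, h2, ?_⟩
      have h4 : compositumDegree σ₀ σ₂ = finrank ℚ k := h3
      rw [h4]
      exact hmδ
    · obtain ⟨σ₂, h2, h3⟩ := Pool.Agent.D0H65.MD.t_COMPB k k₀ S hS σ₀
      refine ⟨σ₂, h2, ?_⟩
      have h4 : compositumDegree σ₀ σ₂ ≤ finrank k₀ k * finrank ℚ k := h3
      calc (compositumDegree σ₀ σ₂ : ℝ) ≤ (finrank k₀ k : ℝ) * finrank ℚ k := by exact_mod_cast h4
        _ ≤ (finrank ℚ k : ℝ) ^ δ * finrank ℚ k := mul_le_mul_of_nonneg_right hk₀ hm0.le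
        _ = (finrank ℚ k : ℝ) ^ (1 + δ) := by
          rw [add_comm, Real.rpow_add_one hm0.ne']

end Pool.Agent.Results.MP_162bbe_gt.ExceptionalEmbedding
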