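import Mathlib
import Pool.Agent.D0H56.MD.App2

/-!
# Margulis' conjecture for division algebras of odd degree, over all number fields

Arithmetic groups over an arbitrary number field `k`, of any degree `m`, realized by integral
matrices of a fixed size `n`, with at most `s` noncompact embeddings, are considered. An eigenvalue
`x` (in an algebraic closure of `k`) of an element is called high if no power `x ^ N`, `N ≥ 1`, has
degree at most `2` over `k`.

* An element with a high eigenvalue has an eigenvalue `l` with `log |l| ≥ c m ^ a`, for every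
  `a < 1/8`. So Margulis' conjecture is reduced, over all number fields, to the elements all of whose
  eigenvalues have powers of degree at most `2` over `k` (as the Salem numbers over `k`).
* The groups `Γ` in which each `γ ≠ 1` has a high eigenvalue form a uniformly discrete family, and
  their injectivity radii tend to infinity with the degree `m`.
* This applies to all torsion-free groups contained in a division algebra of odd degree whose centre
  `Z` is `k` or a quadratic extension of `k`, which meet `Z` in the identity only; for instance to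
  the torsion-free groups of elements of reduced norm `1` in division algebras of odd degree over `Z`,
  unitary with respect to an involution of the second kind (the arithmetic lattices of the second
  type in the groups `SU(p, q)`, `p + q` odd, defined by division algebras).

Method. If all pairs of conjugates of `x` over `k` are multiplicatively dependent then some power of
`x` has at most two conjugates over `k`. So a high eigenvalue `x` has a conjugate `y` over `k`,
multiplicatively independent of `x`, and the degree of `ℚ(x, y)` is at most `n² m`, while `x` has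
degree at least `m/s` over `ℚ`. Such a pair of conjugates has a large height: this is a
two-dimensional Dobrowolski theorem, proved by an interpolation determinant (see `ExceptionalEmbedding`).

`Pool.Agent.H225R3.MargDefs` contains the definitions: `Realization ρ Γ k n S` (a homomorphism `r`
from `Γ` to the `n` by `n` matrices over the ring of integers of the number field `k`, bounded under
all embeddings outside `S`, such that for `σ` in `S` the eigenvalues of `σ (r γ)` are eigenvalues of
`ρ γ`, and such that only `1` is mapped to a unipotent matrix) and `UniformlyDiscrete` (there is an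
identity neighbourhood `U` such that `g U g⁻¹` meets every group of the family in the identity only).
-/

set_option autoImplicit false

namespace Pool.Agent.Results.MP_162bbe_gt.OddDivisionAlgebras

open NumberField Module Pool.Agent.H225R3.Marg

universe u

/-- The matrix `A` over the integers of `k` has an eigenvalue `x` in the algebraic closure of `k` such
that no power `x ^ N`, `N ≥ 1`, has degree at most `2` over `k`. -/
def HighEigenvalue {k : Type} [Field k] [NumberField k] {n : ℕ}
    (A : Matrix (Fin n) (Fin n) (𝓞 k)) : Prop :=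
  ∃ x : AlgebraicClosure k,
    (A.map (algebraMap (𝓞 k) (AlgebraicClosure k))).charpoly.IsRoot x ∧
    ∀ N : ℕ, 0 < N → 3 ≤ (minpoly k (x ^ N)).natDegree

/-- The subgroups `Γ` of `G` that have a realization by matrices of size `n`, with at most `s`
noncompact embeddings, over a number field `k` of degree `m`, such that the matrix of every `γ ≠ 1`
has a high eigenvalue. -/
def HighFamily (s n m : ℕ) {G : Type*} [Group G] {M : ℕ}
    (ρ : G →* Matrix (Fin M) (Fin M) ℂ) : Set (Subgroup G) :=
  {Γ | ∃ (k : Type) (_ : Field k) (_ : NumberField k) (S : Finset (k →+* ℂ))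
      (R : Realization ρ Γ k n S), S.card ≤ s ∧ finrank ℚ k = m ∧
      ∀ γ : Γ, γ ≠ 1 → HighEigenvalue (R.r γ)}

/-- `D` is a division algebra of odd degree with a small centre: a subalgebra of the algebra of `n` by
`n` matrices over `k`, in which every nonzero element is invertible, whose centre has dimension at
most `2` over `k`, and whose dimension over the centre is odd. -/
def OddDivisionAlgebra {k : Type} [Field k] {n : ℕ}
    (D : Subalgebra k (Matrix (Fin n) (Fin n) k)) : Prop :=
  (∀ a ∈ D, a ≠ 0 → ∃ b ∈ D, a * b = 1) ∧ finrank k (Subalgebra.center k D) ≤ 2 ∧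
    ∃ q : ℕ, Odd q ∧ finrank k D = finrank k (Subalgebra.center k D) * q

/-- The torsion-free subgroups `Γ` of `G` that have a realization by matrices of size `n`, with at
most `s` noncompact embeddings, over a number field `k` of degree `m`, by matrices in an
`OddDivisionAlgebra` `D`, such that only the identity of `Γ` is realized by a matrix which commutes
with all elements of `D`. -/
def DivisionFamily (s n m : ℕ) {G : Type*} [Group G] {M : ℕ}
    (ρ : G →* Matrix (Fin M) (Fin M) ℂ) : Set (Subgroup G) :=
  {Γ | (∀ γ ∈ Γ, ∀ N : ℕ, 0 < N → γ ^ N = 1 → γ = 1) ∧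
    ∃ (k : Type) (_ : Field k) (_ : NumberField k) (S : Finset (k →+* ℂ))
      (R : Realization ρ Γ k n S), S.card ≤ s ∧ finrank ℚ k = m ∧
      ∃ D : Subalgebra k (Matrix (Fin n) (Fin n) k), OddDivisionAlgebra D ∧
        (∀ γ : Γ, (R.r γ).map (algebraMap (𝓞 k) k) ∈ D) ∧
        ∀ γ : Γ, (∀ b ∈ D, (R.r γ).map (algebraMap (𝓞 k) k) * b =
          b * (R.r γ).map (algebraMap (𝓞 k) k)) → γ = 1}

/-- `γ` has an eigenvalue `l` under one of the noncompact embeddings, which is also an eigenvalue of
`ρ γ`, with `log |l| ≥ b`. -/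
def LargeEigenvalue {G : Type*} [Group G] {M : ℕ} {ρ : G →* Matrix (Fin M) (Fin M) ℂ}
    {Γ : Subgroup G} {k : Type} [Field k] [NumberField k] {n : ℕ} {S : Finset (k →+* ℂ)}
    (R : Realization ρ Γ k n S) (b : ℝ) (γ : Γ) : Prop :=
  ∃ σ ∈ S, ∃ l : ℂ, IsEig (conjMat σ (R.r γ)) l ∧ IsEig (ρ γ) l ∧ b ≤ Real.log ‖l‖

/-- **Margulis' conjecture for division algebras of odd degree, over all number fields.**

1. For all `n`, `s` and `0 ≤ a < 1/8` there is `c > 0` such that for every group `Γ` with a
   realization of size `n` over a number field `k` of degree `m`, with at most `s` noncompact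
   embeddings, every `γ` in `Γ` whose matrix has a high eigenvalue has an eigenvalue `l` (under a
   noncompact embedding, and of `ρ γ`) with `log |l| ≥ c m ^ a`.
2. `DivisionFamily s n m ρ` is contained in `HighFamily s n m ρ`.
3. For every continuous finite dimensional complex representation `ρ` of a topological group `G`, the
   union over all `m` of the families `HighFamily s n m ρ` is uniformly discrete, and for every
   compact subset `C` of `G` there is `m₀` such that the conjugates of `C` meet the groups in
   `HighFamily s n m ρ`, `m ≥ m₀`, at most in the identity.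
4. (Reduction.) For all `n`, `s` and `ρ` there is an identity neighbourhood `U` in `G` such that for
   every group `Γ` with a realization of size `n` over any number field, with at most `s` noncompact
   embeddings, the matrices of the elements of `Γ` which are conjugate in `G` to elements of `U` have
   no high eigenvalue: every eigenvalue has a power of degree at most `2` over the number field. -/
theorem result :
    (∀ (n s : ℕ) (a : ℝ), 0 ≤ a → a < 1 / 8 → ∃ c : ℝ, 0 < c ∧
      ∀ (G : Type u) [Group G] (M : ℕ) (ρ : G →* Matrix (Fin M) (Fin M) ℂ)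
        (Γ : Subgroup G) (k : Type) [Field k] [NumberField k] (S : Finset (k →+* ℂ))
        (R : Realization ρ Γ k n S), S.card ≤ s →
        ∀ γ : Γ, HighEigenvalue (R.r γ) → LargeEigenvalue R (c * (finrank ℚ k : ℝ) ^ a) γ) ∧
    (∀ (G : Type u) [Group G] (M : ℕ) (ρ : G →* Matrix (Fin M) (Fin M) ℂ) (n s m : ℕ),
      DivisionFamily s n m ρ ⊆ HighFamily s n m ρ) ∧
    (∀ (G : Type u) [Group G] [TopologicalSpace G] (M : ℕ) (ρ : G →* Matrix (Fin M) (Fin M) ℂ),
      Continuous ρ → ∀ (n s : ℕ),
      UniformlyDiscrete (⋃ m : ℕ, HighFamily s n m ρ) ∧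
      ∀ C : Set G, IsCompact C → ∃ m₀ : ℕ, ∀ m : ℕ, m₀ ≤ m → ∀ Γ ∈ HighFamily s n m ρ,
        ∀ g : G, ∀ v ∈ C, g * v * g⁻¹ ∈ Γ → g * v * g⁻¹ = 1) ∧
    (∀ (G : Type u) [Group G] [TopologicalSpace G] (M : ℕ) (ρ : G →* Matrix (Fin M) (Fin M) ℂ),
      Continuous ρ → ∀ (n s : ℕ), ∃ U ∈ nhds (1 : G),
      ∀ (Γ : Subgroup G) (k : Type) [Field k] [NumberField k] (S : Finset (k →+* ℂ))
        (R : Realization ρ Γ k n S), S.card ≤ s → ∀ γ : Γ,
        (∃ g : G, ∃ v ∈ U, (γ : G) = g * v * g⁻¹) → ∀ x : AlgebraicClosure k,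
          ((R.r γ).map (algebraMap (𝓞 k) (AlgebraicClosure k))).charpoly.IsRoot x →
          ∃ N : ℕ, 0 < N ∧ (minpoly k (x ^ N)).natDegree ≤ 2) := by
  have hE := Pool.Agent.D0H56.MD.t_ELT3
  have h1 : ∀ (n s : ℕ) (a : ℝ), 0 ≤ a → a < 1 / 8 → ∃ c : ℝ, 0 < c ∧
      ∀ (G : Type u) [Group G] (M : ℕ) (ρ : G →* Matrix (Fin M) (Fin M) ℂ)
        (Γ : Subgroup G) (k : Type) [Field k] [NumberField k] (S : Finset (k →+* ℂ))
        (R : Realization ρ Γ k n S), S.card ≤ s →
        ∀ γ : Γ, HighEigenvalue (R.r γ) →
          LargeEigenvalue R (c * (finrank ℚ k : ℝ) ^ a) γ := by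
    intro n s a ha hab
    obtain ⟨c, hc, h⟩ := Pool.Agent.D0H56.MD.high.{u} hE n s a ha hab
    exact ⟨c, hc, fun G _ M ρ Γ k _ _ S R hS γ ⟨x, hx, hdeg⟩ =>
      h G M ρ Γ k S R hS γ x hx hdeg⟩
  refine ⟨h1, ?_, ?_, ?_⟩
  · rintro G _ M ρ n s m Γ ⟨htf, k, _, _, S, R, hs, hm, D, hD, hmem, hcen⟩
    refine ⟨k, _, _, S, R, hs, hm, fun γ hγ => ?_⟩
    have hpow : ∀ N : ℕ, ((R.r γ).map (algebraMap (𝓞 k) k)) ^ N =
        (R.r (γ ^ N)).map (algebraMap (𝓞 k) k) := by
      intro N
      have h2 : (algebraMap (𝓞 k) k).mapMatrix (R.r γ) = (R.r γ).map (algebraMap (𝓞 k) k) := rfl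
      have h3 : (algebraMap (𝓞 k) k).mapMatrix (R.r (γ ^ N)) =
        (R.r (γ ^ N)).map (algebraMap (𝓞 k) k) := rfl
      rw [← h2, ← h3, map_pow, map_pow]
    have hnc : ∀ N : ℕ, 0 < N → ∃ b ∈ D, ((R.r γ).map (algebraMap (𝓞 k) k)) ^ N * b ≠
        b * ((R.r γ).map (algebraMap (𝓞 k) k)) ^ N := by
      intro N hN
      by_contra hcon
      push Not at hcon
      rw [hpow N] at hcon
      have h2 := hcen (γ ^ N) hcon
      apply hγ
      apply Subtype.ext
      exact htf _ γ.2 N hN (by
        have := congrArg Subtype.val h2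
        simpa using this)
    obtain ⟨x, hx⟩ : ∃ x : AlgebraicClosure k,
        (((R.r γ).map (algebraMap (𝓞 k) k)).map
          (algebraMap k (AlgebraicClosure k))).charpoly.IsRoot x := by
      apply IsAlgClosed.exists_root
      rw [Matrix.charpoly_degree_eq_dim, Fintype.card_fin]
      intro h0
      have hn : n = 0 := by exact_mod_cast h0
      subst hn
      obtain ⟨b, -, hb⟩ := hnc 1 one_pos
      exact hb (Matrix.ext fun i => i.elim0)
    have h2 : (R.r γ).map (algebraMap (𝓞 k) (AlgebraicClosure k)) =
        ((R.r γ).map (algebraMap (𝓞 k) k)).map (algebraMap k (AlgebraicClosure k)) := by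
      rw [Matrix.map_map]
      congr 1
    refine ⟨x, by rw [h2]; exact hx, ?_⟩
    exact Pool.Agent.D0H65.MD.t_DIVI k n D hD _ (hmem γ) hnc x hx
  · intro G _ _ M ρ hρ n s
    obtain ⟨c, hc, h⟩ := h1 n s (1 / 16) (by norm_num) (by norm_num)
    have hF : ∀ m : ℕ, ∀ Γ ∈ HighFamily s n m ρ, ∀ γ ∈ Γ, γ ≠ 1 → ∃ l : ℂ, IsEig (ρ γ) l ∧
        c * (m : ℝ) ^ ((1 : ℝ) / 16) ≤ Real.log ‖l‖ := by
      rintro m Γ ⟨k, _, _, S, R, hs, hm, hhigh⟩ γ hγ hne
      obtain ⟨σ, -, l, -, hl, hlow⟩ := h G M ρ Γ k S R hs ⟨γ, hγ⟩
        (hhigh _ (fun h0 => hne (congrArg Subtype.val h0)))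
      rw [hm] at hlow
      exact ⟨l, hl, hlow⟩
    refine ⟨Pool.Agent.D0H56.MD.disc_of_large ρ hρ c hc _ ?_, ?_⟩
    · intro Γ hΓ γ hγ hne
      obtain ⟨m, hm⟩ := Set.mem_iUnion.mp hΓ
      obtain ⟨l, hl, hlow⟩ := hF m Γ hm γ hγ hne
      refine ⟨l, hl, le_trans ?_ hlow⟩
      obtain ⟨k, _, _, S, R, -, hdeg, -⟩ := hm
      have hm1 : (1 : ℝ) ≤ m := by
        rw [← hdeg]
        exact_mod_cast (finrank_pos : 0 < finrank ℚ k)
      have h2 : (1 : ℝ) ≤ (m : ℝ) ^ ((1 : ℝ) / 16) := Real.one_le_rpow hm1 (by norm_num)
      nlinarith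
    · intro C hC
      exact Pool.Agent.D0H56.MD.escape_of_large ρ hρ c _ hc (by norm_num) _ hF C hC
  · intro G _ _ M ρ hρ n s
    obtain ⟨c, hc, h⟩ := h1 n s 0 le_rfl (by norm_num)
    have hε : 0 < Real.exp c - 1 := by
      have := Real.add_one_lt_exp hc.ne'
      linarith
    refine ⟨_, nhd ρ hρ (Real.exp c - 1) hε, ?_⟩
    rintro Γ k _ _ S R hS γ ⟨g, v, hv, hγ⟩ x hx
    by_contra hcon
    push Not at hcon
    obtain ⟨σ, -, l, -, hl, hlow⟩ := h G M ρ Γ k S R hS γ
      ⟨x, hx, fun N hN => hcon N hN⟩
    rw [Real.rpow_zero, mul_one] at hlow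
    rw [hγ, IsEig, Pool.Agent.D0H56.MD.charpoly_conj] at hl
    have h2 := close_eig (ρ v) (Real.exp c - 1) hε hv l hl
    have hl0 : 0 < ‖l‖ := by
      rw [norm_pos_iff]
      rintro rfl
      rw [norm_zero, Real.log_zero] at hlow
      linarith
    have h3 : Real.exp c ≤ ‖l‖ := (Real.le_log_iff_exp_le hl0).mp hlow
    have h4 : ‖l‖ ≤ ‖l - 1‖ + 1 := by
      have := norm_add_le (l - 1) 1
      rwa [sub_add_cancel, norm_one] at this
    linarith

end Pool.Agent.Results.MP_162bbe_gt.OddDivisionAlgebras
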