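import Mathlib
import Pool.Agent.D0H56.MD.App6

/-!
# Short elements of arithmetic groups over an arbitrary number field are commensurable

Margulis' conjecture says that the torsion-free irreducible uniform lattices in a semisimple group
`G` of real rank at least `2` contain no short elements (nontrivial elements which are conjugate in
`G` into a fixed small identity neighbourhood `U`). Here it is shown, for all number fields `k` and
without any other restriction on `k` or on the groups, that the short elements of all the groups over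
the same number field `k` are commensurable: any two eigenvalues `x`, `y` of two short elements
satisfy `x ^ p * y ^ q = 1` for integers `p`, `q`, not both zero. Elements conjugate into a fixed
compact set have the same property if the degree `m` of `k` is large, and in fact if `x` and `y` are
multiplicatively independent then one of the two elements has an eigenvalue `l` with
`log |l| ≥ c m ^ a`, for every `a < 1/8`. (For hyperbolic surfaces and `3`-manifolds: the lengths of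
all short closed geodesics of all arithmetic ones with the same field `k` are rationally dependent.)

Consequences for the structure of a single torsion-free group `Γ` without unipotent elements (as are
the uniform arithmetic lattices), for an identity neighbourhood `U` which depends only on `G` (and
on the size `n` of the matrices and the number `s` of noncompact embeddings, which are bounded in
terms of `G`):

* the elements of `Γ ∩ g U g⁻¹` commute with each other (and all their eigenvalues are in a group of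
  rank one, by the above);
* if `Γ` is contained in a division algebra `D` (of any degree, with any centre) in the algebra of
  `n` by `n` matrices over `k`, then `Γ ∩ g U g⁻¹` is contained in a cyclic subgroup of `Γ` for every
  `g` in `G`. So the Margulis lemma (`Γ ∩ g U g⁻¹` generates a nilpotent group) holds with cyclic
  groups in the place of nilpotent groups, with a neighbourhood independent of `k`. Examples, for `k`
  of any degree: the lattices of type `A₁` in products of copies of `SL₂(ℝ)` and `SL₂(ℂ)` (quaternion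
  algebras over `k`), and the lattices in `SL_d(ℝ)` and `SU(p, q)`, `p + q = d`, defined by division
  algebras of degree `d` over a quadratic extension of `k` with an involution of the second kind;
* in this case the elements of any abelian subgroup `A` of `Γ` which are conjugate into `U`, or, if
  the degree of `k` is large, into a given compact set, lie in a cyclic subgroup of `Γ`. So in the
  groups of higher rank, where `A` can have rank at least `2`, the second minimum of the lengths in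
  `A` tends to infinity with the degree of `k`.

Method. For two eigenvalues `x`, `y` over the same `k` the degree of `ℚ(x, y)` is at most `n² m`,
while `x` and `y` (if they are not roots of unity) have degrees at least `m/s`. If they are
multiplicatively independent then one of them has a large height, by an interpolation determinant
in two variables with Frobenius conditions at many primes (Dobrowolski's method), now for two units
which need not be conjugate. The commutation uses the Zassenhaus commutator estimate: if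
`c = [x, y]` commutes with `x` and `y` then the eigenvalues of `c` are roots of unity, so `c = 1`.

`Pool.Agent.H225R3.MargDefs` contains the definition of `Realization ρ Γ k n S`: a homomorphism `r`
from `Γ` to the `n` by `n` matrices over the ring of integers of the number field `k`, bounded under
all embeddings outside `S`, such that for `σ` in `S` the eigenvalues of `σ (r γ)` are eigenvalues of
`ρ γ`, and such that only `1` is mapped to a unipotent matrix.
-/

set_option autoImplicit false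

namespace Pool.Agent.Results.MP_162bbe_gt.ShortElementsCommensurable

open NumberField Module Pool.Agent.H225R3.Marg

universe u

/-- There is no element of finite order other than the identity. -/
def TorsionFree {G : Type*} [Group G] (Γ : Subgroup G) : Prop :=
  ∀ γ ∈ Γ, ∀ N : ℕ, 0 < N → γ ^ N = 1 → γ = 1

/-- The degree over `ℚ` of the compositum of the conjugates `σ k` and `τ k` of `k`. -/
noncomputable def compositumDegree {k : Type} [Field k] (σ τ : k →+* ℂ) : ℕ :=
  finrank ℚ (IntermediateField.adjoin ℚ (Set.range σ ∪ Set.range τ))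

/-- `x` and `y` are multiplicatively dependent. -/
def Dependent {F : Type*} [Field F] (x y : F) : Prop :=
  ∃ p q : ℤ, (p, q) ≠ (0, 0) ∧ x ^ p * y ^ q = 1

/-- Every eigenvalue of `A` and every eigenvalue of `B` are multiplicatively dependent. -/
def Commensurable {k : Type} [Field k] [NumberField k] {n : ℕ}
    (A B : Matrix (Fin n) (Fin n) (𝓞 k)) : Prop :=
  ∀ x y : AlgebraicClosure k,
    (A.map (algebraMap (𝓞 k) (AlgebraicClosure k))).charpoly.IsRoot x →
    (B.map (algebraMap (𝓞 k) (AlgebraicClosure k))).charpoly.IsRoot y → Dependent x y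

/-- `γ` is conjugate in `G` to an element of `C`. -/
def ConjugateInto {G : Type*} [Group G] (C : Set G) (γ : G) : Prop :=
  ∃ g : G, ∃ v ∈ C, γ = g * v * g⁻¹

/-- `γ` has an eigenvalue `l` under one of the noncompact embeddings, which is also an eigenvalue of
`ρ γ`, with `log |l| ≥ b`. -/
def LargeEigenvalue {G : Type*} [Group G] {M : ℕ} {ρ : G →* Matrix (Fin M) (Fin M) ℂ}
    {Γ : Subgroup G} {k : Type} [Field k] [NumberField k] {n : ℕ} {S : Finset (k →+* ℂ)}
    (R : Realization ρ Γ k n S) (b : ℝ) (γ : Γ) : Prop :=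
  ∃ σ ∈ S, ∃ l : ℂ, IsEig (conjMat σ (R.r γ)) l ∧ IsEig (ρ γ) l ∧ b ≤ Real.log ‖l‖

/-- Let `γ₁`, `γ₂` be elements of groups `Γ₁`, `Γ₂` (in possibly different ambient groups) with
realizations of size `n` over the number field `k`, of degree `m`, with at most `s` noncompact
embeddings. If eigenvalues `x`, `y` of the images of their matrices under embeddings `σ₁`, `σ₂` of `k`
are multiplicatively independent, and the compositum of `σ₁ k` and `σ₂ k` has degree at most
`m ^ (1 + δ)`, then `γ₁` or `γ₂` has an eigenvalue `l` with `log |l| ≥ b`. -/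
def PairGap (n s : ℕ) (δ b : ℝ) (k : Type) [Field k] [NumberField k] : Prop :=
  ∀ (G₁ G₂ : Type u) [Group G₁] [Group G₂] (M₁ M₂ : ℕ)
    (ρ₁ : G₁ →* Matrix (Fin M₁) (Fin M₁) ℂ) (ρ₂ : G₂ →* Matrix (Fin M₂) (Fin M₂) ℂ)
    (Γ₁ : Subgroup G₁) (Γ₂ : Subgroup G₂) (S₁ S₂ : Finset (k →+* ℂ))
    (R₁ : Realization ρ₁ Γ₁ k n S₁) (R₂ : Realization ρ₂ Γ₂ k n S₂), S₁.card ≤ s → S₂.card ≤ s →
    ∀ (γ₁ : Γ₁) (γ₂ : Γ₂) (σ₁ σ₂ : k →+* ℂ) (x y : ℂ),
    (compositumDegree σ₁ σ₂ : ℝ) ≤ (finrank ℚ k : ℝ) ^ (1 + δ) →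
    IsEig (conjMat σ₁ (R₁.r γ₁)) x → IsEig (conjMat σ₂ (R₂.r γ₂)) y → ¬ Dependent x y →
    LargeEigenvalue R₁ b γ₁ ∨ LargeEigenvalue R₂ b γ₂

/-- For any subgroups `Γ₁`, `Γ₂` of `G` with realizations of size `n`, with at most `s` noncompact
embeddings, over the same number field `k`, any `γ₁` in `Γ₁` and `γ₂` in `Γ₂` which are conjugate in
`G` into `C` are commensurable. -/
def CommensurableOn (n s : ℕ) {G : Type*} [Group G] {M : ℕ} (ρ : G →* Matrix (Fin M) (Fin M) ℂ)
    (k : Type) [Field k] [NumberField k] (C : Set G) : Prop :=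
  ∀ (Γ₁ Γ₂ : Subgroup G) (S₁ S₂ : Finset (k →+* ℂ)) (R₁ : Realization ρ Γ₁ k n S₁)
    (R₂ : Realization ρ Γ₂ k n S₂), S₁.card ≤ s → S₂.card ≤ s → ∀ (γ₁ : Γ₁) (γ₂ : Γ₂),
    ConjugateInto C (γ₁ : G) → ConjugateInto C (γ₂ : G) → Commensurable (R₁.r γ₁) (R₂.r γ₂)

/-- The torsion-free subgroups `Γ` of `G` that have a realization by matrices of size `n`, with at
most `s` noncompact embeddings, over a number field `k` of degree `m`. -/
def Family (s n m : ℕ) {G : Type*} [Group G] {M : ℕ}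
    (ρ : G →* Matrix (Fin M) (Fin M) ℂ) : Set (Subgroup G) :=
  {Γ | TorsionFree Γ ∧ ∃ (k : Type) (_ : Field k) (_ : NumberField k) (S : Finset (k →+* ℂ))
      (_ : Realization ρ Γ k n S), S.card ≤ s ∧ finrank ℚ k = m}

/-- The torsion-free subgroups `Γ` of `G` that have a realization by matrices of size `n`, with at
most `s` noncompact embeddings, over a number field `k` of degree `m`, by matrices in a subalgebra
`D` of the algebra of `n` by `n` matrices over `k` in which every nonzero element is invertible. -/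
def DivisionFamily (s n m : ℕ) {G : Type*} [Group G] {M : ℕ}
    (ρ : G →* Matrix (Fin M) (Fin M) ℂ) : Set (Subgroup G) :=
  {Γ | TorsionFree Γ ∧ ∃ (k : Type) (_ : Field k) (_ : NumberField k) (S : Finset (k →+* ℂ))
      (R : Realization ρ Γ k n S), S.card ≤ s ∧ finrank ℚ k = m ∧
      ∃ D : Subalgebra k (Matrix (Fin n) (Fin n) k), (∀ a ∈ D, a ≠ 0 → ∃ b ∈ D, a * b = 1) ∧
        ∀ γ : Γ, (R.r γ).map (algebraMap (𝓞 k) k) ∈ D}

/-- For every `g` in `G` the elements of `Γ ∩ g U g⁻¹` commute with each other. -/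
def LocallyAbelian {G : Type*} [Group G] (U : Set G) (Γ : Subgroup G) : Prop :=
  ∀ g : G, ∀ v ∈ U, ∀ w ∈ U, g * v * g⁻¹ ∈ Γ → g * w * g⁻¹ ∈ Γ → v * w = w * v

/-- For every `g` in `G` the set `Γ ∩ g U g⁻¹` is contained in a cyclic subgroup of `Γ`. -/
def LocallyCyclic {G : Type*} [Group G] (U : Set G) (Γ : Subgroup G) : Prop :=
  ∀ g : G, ∃ γ₀ ∈ Γ, ∀ v ∈ U, g * v * g⁻¹ ∈ Γ → g * v * g⁻¹ ∈ Subgroup.zpowers γ₀

/-- Any set of pairwise commuting elements of `Γ`, which are all conjugate in `G` into `C`, is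
contained in a cyclic subgroup of `Γ`. -/
def AbelianCyclic {G : Type*} [Group G] (C : Set G) (Γ : Subgroup G) : Prop :=
  ∀ X : Set G, X ⊆ Γ → (∀ x ∈ X, ∀ y ∈ X, x * y = y * x) → (∀ x ∈ X, ConjugateInto C x) →
    ∃ γ₀ ∈ Γ, ∀ x ∈ X, x ∈ Subgroup.zpowers γ₀

theorem abelianCyclic_of {G : Type u} [Group G] {M : ℕ} {ρ : G →* Matrix (Fin M) (Fin M) ℂ}
    {Γ : Subgroup G} {k : Type} [Field k] [NumberField k] {n : ℕ} {S : Finset (k →+* ℂ)}
    (R : Realization ρ Γ k n S) (htf : TorsionFree Γ) (C : Set G)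
    (h : ∀ γ₁ γ₂ : Γ, γ₁ * γ₂ = γ₂ * γ₁ → ConjugateInto C (γ₁ : G) → ConjugateInto C (γ₂ : G) →
      ∃ p q : ℤ, (p, q) ≠ (0, 0) ∧ γ₁ ^ p * γ₂ ^ q = 1) : AbelianCyclic C Γ := by
  intro X hX hcomm hC
  obtain ⟨z, hz⟩ := Pool.Agent.D0H56.MD.cyc_set (Pool.Agent.D0H56.MD.tf_sub htf)
    {γ : Γ | (γ : G) ∈ X} (fun x hx y hy => Subtype.ext (hcomm _ hx _ hy))
    (fun x hx y hy => h x y (Subtype.ext (hcomm _ hx _ hy)) (hC _ hx) (hC _ hy))
    (fun x hx => Pool.Agent.D0H56.MD.roots_bdd R htf x hx)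
  refine ⟨z, z.2, fun x hx => ?_⟩
  obtain ⟨j, hj⟩ := hz ⟨x, hX hx⟩ hx
  exact ⟨j, congrArg Subtype.val hj⟩

/-- **Short elements of arithmetic groups over an arbitrary number field are commensurable.**

1. (Gap.) For all `n`, `s`, `0 ≤ δ`, `0 ≤ a < (1 - 3 δ) / 8` there is `c > 0` such that for all
   elements `γ₁`, `γ₂` of groups with realizations of size `n` over the same number field `k`, of
   degree `m`, with at most `s` noncompact embeddings: if eigenvalues `x`, `y` of the images of `γ₁`,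
   `γ₂` under embeddings `σ₁`, `σ₂` of `k` are multiplicatively independent, and the compositum of
   `σ₁ k` and `σ₂ k` has degree at most `m ^ (1 + δ)` (for `σ₁ = σ₂` it has degree `m`), then `γ₁` or
   `γ₂` has an eigenvalue `l` with `log |l| ≥ c m ^ a`.
2. (Short elements are commensurable.) For all `ρ`, `n`, `s` there is an identity neighbourhood `U`
   in `G` such that for all groups in `G` with realizations of size `n`, with at most `s` noncompact
   embeddings, over the same number field `k` (any number field), all elements which are conjugate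
   into `U` are commensurable. The same holds for every compact set `C` in the place of `U`, for all
   `k` of degree at least `m₀ = m₀(C)`.
3. (Margulis lemma with cyclic groups.) For all `ρ`, `n`, `s` there is an identity neighbourhood `U`
   in `G` such that for all groups `Γ` in `Family s n m ρ`, for any `m`, the elements of
   `Γ ∩ g U g⁻¹` commute with each other, and for all groups `Γ` in `DivisionFamily s n m ρ`, for any
   `m`, every `Γ ∩ g U g⁻¹` is contained in a cyclic subgroup of `Γ`, and any set of pairwise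
   commuting elements of `Γ`, which are all conjugate in `G` into `U`, is contained in a cyclic
   subgroup of `Γ`.
4. For every compact set `C` there is `m₀` such that for all groups `Γ` in `DivisionFamily s n m ρ`,
   `m ≥ m₀`, any set of pairwise commuting elements of `Γ`, which are all conjugate in `G` into `C`,
   is contained in a cyclic subgroup of `Γ`. -/
theorem result :
    (∀ (n s : ℕ) (δ a : ℝ), 0 ≤ δ → 0 ≤ a → a < (1 - 3 * δ) / 8 → ∃ c : ℝ, 0 < c ∧
      ∀ (k : Type) [Field k] [NumberField k], PairGap.{u} n s δ (c * (finrank ℚ k : ℝ) ^ a) k ∧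
        ∀ σ : k →+* ℂ, compositumDegree σ σ = finrank ℚ k) ∧
    (∀ (G : Type u) [Group G] [TopologicalSpace G] (M : ℕ) (ρ : G →* Matrix (Fin M) (Fin M) ℂ),
      Continuous ρ → ∀ (n s : ℕ),
      (∃ U ∈ nhds (1 : G), ∀ (k : Type) [Field k] [NumberField k], CommensurableOn n s ρ k U) ∧
      ∀ C : Set G, IsCompact C → ∃ m₀ : ℕ, ∀ (k : Type) [Field k] [NumberField k],
        m₀ ≤ finrank ℚ k → CommensurableOn n s ρ k C) ∧
    (∀ (G : Type u) [Group G] [TopologicalSpace G] [IsTopologicalGroup G] (M : ℕ)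
      (ρ : G →* Matrix (Fin M) (Fin M) ℂ), Continuous ρ → ∀ (n s : ℕ), ∃ U ∈ nhds (1 : G),
      ∀ m : ℕ, (∀ Γ ∈ Family s n m ρ, LocallyAbelian U Γ) ∧
        ∀ Γ ∈ DivisionFamily s n m ρ, LocallyCyclic U Γ ∧ AbelianCyclic U Γ) ∧
    (∀ (G : Type u) [Group G] [TopologicalSpace G] (M : ℕ) (ρ : G →* Matrix (Fin M) (Fin M) ℂ),
      Continuous ρ → ∀ (n s : ℕ) (C : Set G), IsCompact C → ∃ m₀ : ℕ, ∀ m : ℕ, m₀ ≤ m →
      ∀ Γ ∈ DivisionFamily s n m ρ, AbelianCyclic C Γ) := by
  have hdep : ∀ (F : Type) [Field F] (x y : F), x ≠ 0 → y ≠ 0 → ¬ Dependent x y →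
      Pool.Agent.D0H56.MD.MI x y := by
    intro F _ x y hx hy h
    refine ⟨hx, hy, fun p q hpq => ?_⟩
    by_contra hcon
    apply h
    refine ⟨p, q, fun h0 => ?_, hpq⟩
    rw [Prod.mk.injEq] at h0
    exact hcon h0
  have hunit : ∀ (G : Type u) [Group G] (M : ℕ) (ρ : G →* Matrix (Fin M) (Fin M) ℂ)
      (Γ : Subgroup G) (k : Type) [Field k] [NumberField k] (n : ℕ) (S : Finset (k →+* ℂ))
      (R : Realization ρ Γ k n S) (γ : Γ) (x : AlgebraicClosure k),
      ((R.r γ).map (algebraMap (𝓞 k) (AlgebraicClosure k))).charpoly.IsRoot x → x ≠ 0 := by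
    intro G _ M ρ Γ k _ _ n S R γ x hx hx0
    obtain ⟨σ, hσ⟩ := R.nonempty
    obtain ⟨φ, -, -, -, h3⟩ := Pool.Agent.D0H65.MD.t_EXT k σ
    refine Pool.Agent.D0H56.MD.eig_ne R γ σ (φ x) (h3 n _ x hx) ?_
    rw [hx0, map_zero]
  have key : ∀ (n s : ℕ) (a : ℝ), 0 ≤ a → a < 1 / 8 → ∃ c : ℝ, 0 < c ∧
      ∀ (G : Type u) [Group G] (M : ℕ) (ρ : G →* Matrix (Fin M) (Fin M) ℂ) (k : Type) [Field k]
        [NumberField k] (Γ₁ Γ₂ : Subgroup G)
        (S₁ S₂ : Finset (k →+* ℂ)) (R₁ : Realization ρ Γ₁ k n S₁) (R₂ : Realization ρ Γ₂ k n S₂),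
        S₁.card ≤ s → S₂.card ≤ s → ∀ (γ₁ : Γ₁) (γ₂ : Γ₂),
        (∀ l : ℂ, IsEig (ρ γ₁) l → Real.log ‖l‖ < c * (finrank ℚ k : ℝ) ^ a) →
        (∀ l : ℂ, IsEig (ρ γ₂) l → Real.log ‖l‖ < c * (finrank ℚ k : ℝ) ^ a) →
        Commensurable (R₁.r γ₁) (R₂.r γ₂) := by
    intro n s a ha hab
    obtain ⟨c, hc, h⟩ := Pool.Agent.D0H56.MD.two_elt_closure.{u} n s a ha hab
    refine ⟨c, hc, ?_⟩
    intro G _ M ρ k _ _ Γ₁ Γ₂ S₁ S₂ R₁ R₂ hS₁ hS₂ γ₁ γ₂ h1 h2 x y hx hy
    by_contra hcon
    rcases h G G M M ρ ρ Γ₁ Γ₂ k S₁ S₂ R₁ R₂ hS₁ hS₂ γ₁ γ₂ x y hx hy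
      (hdep _ x y (hunit G M ρ Γ₁ k n S₁ R₁ γ₁ x hx) (hunit G M ρ Γ₂ k n S₂ R₂ γ₂ y hy) hcon) with
      ⟨σ, -, l, -, hl, hlow⟩ | ⟨σ, -, l, -, hl, hlow⟩
    · exact absurd hlow (not_le.mpr (h1 l hl))
    · exact absurd hlow (not_le.mpr (h2 l hl))
  refine ⟨?_, ?_, ?_, ?_⟩
  · intro n s δ a hδ ha hab
    obtain ⟨c, hc, h⟩ := Pool.Agent.D0H56.MD.two_elt.{u} n s δ a hδ ha hab
    refine ⟨c, hc, fun k _ _ => ⟨?_, fun σ => Pool.Agent.D0H56.MD.cdeg_self σ⟩⟩
    intro G₁ G₂ _ _ M₁ M₂ ρ₁ ρ₂ Γ₁ Γ₂ S₁ S₂ R₁ R₂ hS₁ hS₂ γ₁ γ₂ σ₁ σ₂ x y hcd hx hy hxy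
    exact h G₁ G₂ M₁ M₂ ρ₁ ρ₂ Γ₁ Γ₂ k S₁ S₂ R₁ R₂ hS₁ hS₂ γ₁ γ₂ σ₁ σ₂ x y hcd hx hy
      (hdep _ x y (Pool.Agent.D0H56.MD.eig_ne R₁ γ₁ σ₁ x hx)
        (Pool.Agent.D0H56.MD.eig_ne R₂ γ₂ σ₂ y hy) hxy)
  · intro G _ _ M ρ hρ n s
    refine ⟨?_, ?_⟩
    · obtain ⟨c, hc, h⟩ := key n s 0 le_rfl (by norm_num)
      obtain ⟨U, hU, hU2⟩ := Pool.Agent.D0H56.MD.not_big_nhd ρ hρ c hc
      refine ⟨U, hU, ?_⟩
      rintro k _ _ Γ₁ Γ₂ S₁ S₂ R₁ R₂ hS₁ hS₂ γ₁ γ₂ ⟨g₁, v₁, hv₁, e₁⟩ ⟨g₂, v₂, hv₂, e₂⟩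
      refine h G M ρ k Γ₁ Γ₂ S₁ S₂ R₁ R₂ hS₁ hS₂ γ₁ γ₂ (fun l hl => ?_) (fun l hl => ?_)
      · rw [Real.rpow_zero, mul_one]
        rw [e₁] at hl
        exact hU2 g₁ v₁ hv₁ l hl
      · rw [Real.rpow_zero, mul_one]
        rw [e₂] at hl
        exact hU2 g₂ v₂ hv₂ l hl
    · intro C hC
      obtain ⟨c, hc, h⟩ := key n s (1 / 16) (by norm_num) (by norm_num)
      obtain ⟨m₀, hm₀⟩ := Pool.Agent.D0H56.MD.not_big_compact ρ hρ c (1 / 16) hc (by norm_num) C hC
      refine ⟨m₀, ?_⟩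
      rintro k _ _ hm Γ₁ Γ₂ S₁ S₂ R₁ R₂ hS₁ hS₂ γ₁ γ₂ ⟨g₁, v₁, hv₁, e₁⟩ ⟨g₂, v₂, hv₂, e₂⟩
      refine h G M ρ k Γ₁ Γ₂ S₁ S₂ R₁ R₂ hS₁ hS₂ γ₁ γ₂ (fun l hl => ?_) (fun l hl => ?_)
      · rw [e₁] at hl
        exact hm₀ _ hm g₁ v₁ hv₁ l hl
      · rw [e₂] at hl
        exact hm₀ _ hm g₂ v₂ hv₂ l hl
  · intro G _ _ _ M ρ hρ n s
    obtain ⟨c, hc, h⟩ := Pool.Agent.D0H56.MD.comm_big.{u} n s 0 le_rfl (by norm_num)
    obtain ⟨U, hU, hU2⟩ := Pool.Agent.D0H56.MD.not_big_nhd ρ hρ c hc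
    refine ⟨U ∩ Pool.Agent.D0H56.MD.V ρ (Pool.Agent.D0H56.MD.eps M),
      Filter.inter_mem hU (Pool.Agent.D0H56.MD.V_nhd ρ hρ _ (Pool.Agent.D0H56.MD.eps_pos M)),
      fun m => ⟨?_, ?_⟩⟩
    · rintro Γ ⟨htf, k, _, _, S, R, -, -⟩ g v hv w hw hvΓ hwΓ
      exact Pool.Agent.D0H56.MD.commute_near R htf g v w hv.2 hw.2 hvΓ hwΓ
    · rintro Γ ⟨htf, k, _, _, S, R, hs, -, D, hD, hDR⟩
      have hAC : AbelianCyclic (U ∩ Pool.Agent.D0H56.MD.V ρ (Pool.Agent.D0H56.MD.eps M)) Γ := by
        apply abelianCyclic_of R htf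
        rintro γ₁ γ₂ hcomm ⟨g₁, v₁, hv₁, e₁⟩ ⟨g₂, v₂, hv₂, e₂⟩
        rcases h G M ρ Γ k S R D hD hs γ₁ γ₂ (hDR γ₁) (hDR γ₂) hcomm with
          h1 | ⟨σ, -, l, -, hl, hlow⟩ | ⟨σ, -, l, -, hl, hlow⟩
        · exact h1
        · rw [Real.rpow_zero, mul_one] at hlow
          rw [e₁] at hl
          exact absurd hlow (not_le.mpr (hU2 g₁ v₁ hv₁.1 l hl))
        · rw [Real.rpow_zero, mul_one] at hlow
          rw [e₂] at hl
          exact absurd hlow (not_le.mpr (hU2 g₂ v₂ hv₂.1 l hl))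
      refine ⟨fun g => ?_, hAC⟩
      obtain ⟨γ₀, hγ₀, h2⟩ := hAC {x : G | x ∈ Γ ∧
          ∃ v ∈ U ∩ Pool.Agent.D0H56.MD.V ρ (Pool.Agent.D0H56.MD.eps M), x = g * v * g⁻¹}
        (fun x hx => hx.1)
        (by
          rintro x ⟨hx, v, hv, rfl⟩ y ⟨hy, w, hw, rfl⟩
          have h3 := Pool.Agent.D0H56.MD.commute_near R htf g v w hv.2 hw.2 hx hy
          have e3 : (g * v * g⁻¹) * (g * w * g⁻¹) = g * (v * w) * g⁻¹ := by group
          have e4 : (g * w * g⁻¹) * (g * v * g⁻¹) = g * (w * v) * g⁻¹ := by group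
          rw [e3, e4, h3])
        (by
          rintro x ⟨-, v, hv, hxv⟩
          exact ⟨g, v, hv, hxv⟩)
      exact ⟨γ₀, hγ₀, fun v hv hvΓ => h2 _ ⟨hvΓ, v, hv, rfl⟩⟩
  · intro G _ _ M ρ hρ n s C hC
    obtain ⟨c, hc, h⟩ := Pool.Agent.D0H56.MD.comm_big.{u} n s (1 / 16) (by norm_num) (by norm_num)
    obtain ⟨m₀, hm₀⟩ := Pool.Agent.D0H56.MD.not_big_compact ρ hρ c (1 / 16) hc (by norm_num) C hC
    refine ⟨m₀, ?_⟩
    rintro m hm Γ ⟨htf, k, _, _, S, R, hs, hmk, D, hD, hDR⟩
    apply abelianCyclic_of R htf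
    rintro γ₁ γ₂ hcomm ⟨g₁, v₁, hv₁, e₁⟩ ⟨g₂, v₂, hv₂, e₂⟩
    rcases h G M ρ Γ k S R D hD hs γ₁ γ₂ (hDR γ₁) (hDR γ₂) hcomm with
      h1 | ⟨σ, -, l, -, hl, hlow⟩ | ⟨σ, -, l, -, hl, hlow⟩
    · exact h1
    · rw [hmk] at hlow
      rw [e₁] at hl
      exact absurd hlow (not_le.mpr (hm₀ m hm g₁ v₁ hv₁ l hl))
    · rw [hmk] at hlow
      rw [e₂] at hl
      exact absurd hlow (not_le.mpr (hm₀ m hm g₂ v₂ hv₂ l hl))

end Pool.Agent.Results.MP_162bbe_gt.ShortElementsCommensurable
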