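import Mathlib
import Pool.Agent.D0H86.MG.Uni

/-!
# Margulis' injectivity radius conjecture for groups with unipotent reduction

Let `Γ` be a torsion-free arithmetic group, realized by integral matrices `r γ` of any size over a
number field `k` of degree `d`, with at most `s` noncompact embeddings. Let `I` be an ideal of the
ring of integers of `k` and `e`, `N` positive integers such that the matrices `r γ` have the
following property: modulo `I`, the power `(r γ) ^ e` is unipotent, with `((r γ) ^ e - 1) ^ N = 0`.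
Put `ℓ = log (norm I) / N`. Then each `γ ≠ 1` in `Γ` has an eigenvalue `l` under a noncompact
embedding, `|l| > 1`, with

`e log |l| ≥ min (ℓ / s, ℓ ^ 2 / (d s L), ℓ ^ 4 / ((d s) ^ 2 L ^ 3)) / 216000`,
`L = log (2 d s (1 + 1 / ℓ))`.

The bound does not depend on the size of the matrices. So if `e` and `N` are fixed, the groups with
`log (norm I) ≥ c d ^ (1 / 2) (log (2 d)) ^ (3 / 4)` are uniformly discrete; and the exponent `e`
may grow with the degree and with `I`.

For realizations of a fixed size `n` no congruence condition is needed. If `P` is a finite set of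
prime ideals of `k`, with product `I`, and `e` is a multiple of `(norm Q) ^ i - 1` for all `Q` in `P`
and `1 ≤ i ≤ n`, then `(r γ) ^ e` is unipotent modulo `I`, with `N = n`. So the groups over fields
with at least `c d ^ (1 / 2) (log (2 d)) ^ (3 / 4)` prime ideals of bounded norm are uniformly
discrete.

Method. Let `x` be an eigenvalue of `r γ`, not a root of unity, `L = k (x)`, `ν = [L : k]` and
`α = x ^ e`. The norm of `α - 1` is at least `exp (ν ℓ)`. The energy inequality is used for the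
conjugates of `α, α ^ 2, …, α ^ m`, counted with multiplicity, together with the point `1` with a
weight; the energy of the conjugates is nonnegative (discriminants and resultants), and the
interaction of the point `1` with them is the norm of `1 - α ^ j`. The conjugates of `α ^ j` have
multiplicity at most `s ν`, as all embeddings of `L` which agree on `x ^ (e j)` with an embedding
expanding it lie above the noncompact embeddings of `k`. So the size `ν` cancels.

`Pool.Agent.H225R3.MargDefs` contains the definitions: `Realization ρ Γ k n S` (a homomorphism `r`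
from `Γ` to the `n` by `n` matrices over the ring of integers of the number field `k`, bounded under
all embeddings outside `S`, such that for `σ` in `S` the eigenvalues of `σ (r γ)` are eigenvalues of
`ρ γ`, and such that only `1` is mapped to a unipotent matrix) and `UniformlyDiscrete` (there is an
identity neighbourhood `U` such that `g U g⁻¹` meets every group of the family in the identity only).
-/

set_option autoImplicit false

namespace Pool.Agent.Results.MP_162bbe_gt.UnipotentReduction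

open NumberField Module Pool.Agent.H225R3.Marg

universe u

/-- There is no element of finite order other than the identity. -/
def TorsionFree {G : Type*} [Group G] (Γ : Subgroup G) : Prop :=
  ∀ γ ∈ Γ, ∀ N : ℕ, 0 < N → γ ^ N = 1 → γ = 1

/-- The lower bound, as a function of the degree `d`, the number `s` of noncompact embeddings and
the logarithm `ℓ` of the size of the level. -/
noncomputable def bound (d s : ℕ) (ℓ : ℝ) : ℝ :=
  min (ℓ / s) (min (ℓ ^ 2 / (d * s * Real.log (2 * (d * s) * (1 + 1 / ℓ))))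
    (ℓ ^ 4 / ((d * s) ^ 2 * Real.log (2 * (d * s) * (1 + 1 / ℓ)) ^ 3)))

/-- For every `γ` in `Γ` the matrix `(r γ) ^ e` is unipotent modulo the ideal `I`: all entries of
`((r γ) ^ e - 1) ^ N` lie in `I`. -/
def UnipotentLevel {G : Type*} [Group G] {M : ℕ} {ρ : G →* Matrix (Fin M) (Fin M) ℂ}
    {Γ : Subgroup G} {k : Type} [Field k] [NumberField k] {n : ℕ} {S : Finset (k →+* ℂ)}
    (R : Realization ρ Γ k n S) (I : Ideal (𝓞 k)) (e N : ℕ) : Prop :=
  0 < e ∧ 0 < N ∧ ∀ (γ : Γ) (i j : Fin n), ((R.r γ ^ e - 1) ^ N) i j ∈ I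

/-- Every `γ ≠ 1` in `Γ` has an eigenvalue `l` under one of the noncompact embeddings, which is also
an eigenvalue of `ρ γ`, with `|l| > 1` and `e log |l| ≥ bound d s ℓ / 216000`, where `d` is the
degree of `k`. -/
def EigenvalueBound {G : Type*} [Group G] {M : ℕ} {ρ : G →* Matrix (Fin M) (Fin M) ℂ}
    {Γ : Subgroup G} {k : Type} [Field k] [NumberField k] {n : ℕ} {S : Finset (k →+* ℂ)}
    (R : Realization ρ Γ k n S) (s e : ℕ) (ℓ : ℝ) : Prop :=
  ∀ γ : Γ, γ ≠ 1 → ∃ σ ∈ S, ∃ l : ℂ, IsEig (conjMat σ (R.r γ)) l ∧ IsEig (ρ γ) l ∧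
    1 < ‖l‖ ∧ bound (finrank ℚ k) s ℓ ≤ 216000 * (e * Real.log ‖l‖)

/-- `P` consists of prime ideals, not `0`, and `e` is a positive multiple of `(norm Q) ^ i - 1` for
all `Q` in `P` and `1 ≤ i ≤ n`. -/
def Exponent {k : Type} [Field k] [NumberField k] (P : Finset (Ideal (𝓞 k))) (n e : ℕ) : Prop :=
  (∀ Q ∈ P, Q.IsPrime ∧ Q ≠ ⊥) ∧ 0 < e ∧
    ∀ Q ∈ P, ∀ i : ℕ, 1 ≤ i → i ≤ n → Ideal.absNorm Q ^ i - 1 ∣ e

/-- The exponent `e` is small compared with the size `ℓ` of the level, for fields of degree `d`: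
`e ≤ C ℓ`, `e d log (2 d) ≤ C ℓ ^ 2` and `e d ^ 2 log (2 d) ^ 3 ≤ C ℓ ^ 4`. -/
def Large (C : ℝ) (d e : ℕ) (ℓ : ℝ) : Prop :=
  (e : ℝ) ≤ C * ℓ ∧ e * (d * Real.log (2 * d)) ≤ C * ℓ ^ 2 ∧
    e * ((d : ℝ) ^ 2 * Real.log (2 * d) ^ 3) ≤ C * ℓ ^ 4

/-- The torsion-free subgroups `Γ` of `G` that have a realization, of any size `n` and over any
number field `k`, with at most `s` noncompact embeddings, which is unipotent modulo an ideal `I` of
`k`, with exponents `e` and `N`, such that `Large C d e (log (norm I) / N)`, `d = [k : ℚ]`. -/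
def LevelFamily (C : ℝ) (s : ℕ) {G : Type*} [Group G] {M : ℕ}
    (ρ : G →* Matrix (Fin M) (Fin M) ℂ) : Set (Subgroup G) :=
  {Γ | TorsionFree Γ ∧
    ∃ (k : Type) (_ : Field k) (_ : NumberField k) (n : ℕ) (S : Finset (k →+* ℂ))
      (R : Realization ρ Γ k n S) (I : Ideal (𝓞 k)) (e N : ℕ), S.card ≤ s ∧
      UnipotentLevel R I e N ∧ Large C (finrank ℚ k) e (Real.log (Ideal.absNorm I) / N)}

/-- The torsion-free subgroups `Γ` of `G` that have a realization by matrices of size `n`, with at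
most `s` noncompact embeddings, over a number field `k` of degree `d` that has a finite set `P` of
prime ideals with `Exponent P n e` and `Large C d e ℓ`, where `ℓ` is the sum of the logarithms of
the norms of the ideals in `P`. There is no congruence condition on `Γ`. -/
def PrimesFamily (C : ℝ) (s n : ℕ) {G : Type*} [Group G] {M : ℕ}
    (ρ : G →* Matrix (Fin M) (Fin M) ℂ) : Set (Subgroup G) :=
  {Γ | TorsionFree Γ ∧
    ∃ (k : Type) (_ : Field k) (_ : NumberField k) (S : Finset (k →+* ℂ))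
      (_ : Realization ρ Γ k n S) (P : Finset (Ideal (𝓞 k))) (e : ℕ), S.card ≤ s ∧
      Exponent P n e ∧ Large C (finrank ℚ k) e (∑ Q ∈ P, Real.log (Ideal.absNorm Q))}

/-- The torsion-free subgroups `Γ` of `G` that have a realization by matrices of size `n`, with at
most `s` noncompact embeddings, over a number field `k`, of degree `d`, which has at least
`c d ^ (1 / 2) (log (2 d)) ^ (3 / 4)` prime ideals of norm at most `B`. There is no congruence
condition on `Γ`. -/
def BoundedPrimesFamily (c : ℝ) (B s n : ℕ) {G : Type*} [Group G] {M : ℕ}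
    (ρ : G →* Matrix (Fin M) (Fin M) ℂ) : Set (Subgroup G) :=
  {Γ | TorsionFree Γ ∧
    ∃ (k : Type) (_ : Field k) (_ : NumberField k) (S : Finset (k →+* ℂ))
      (_ : Realization ρ Γ k n S) (P : Finset (Ideal (𝓞 k))), S.card ≤ s ∧
      (∀ Q ∈ P, Q.IsPrime ∧ Q ≠ ⊥ ∧ Ideal.absNorm Q ≤ B) ∧
      c * (Real.sqrt (finrank ℚ k) * Real.log (2 * finrank ℚ k) ^ (3 / 4 : ℝ)) ≤ P.card}

/-- **Margulis' conjecture for groups with unipotent reduction.**

Let `Γ` be a torsion-free group with a realization `R` of size `n` over a number field `k` of degree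
`d`, with at most `s` noncompact embeddings.

1. If `(r γ) ^ e` is unipotent modulo `I`, with exponent `N`, for all `γ` in `Γ`, and `I` is a proper
   ideal of norm `> 1`, then every `γ ≠ 1` in `Γ` has an eigenvalue `l` with
   `e log |l| ≥ bound d s (log (norm I) / N) / 216000`.
2. The same is true, without a congruence condition, with `bound d s (ℓ / n)`, if `Exponent P n e`
   for a nonempty finite set `P` of prime ideals and `ℓ` is the sum of the logarithms of their norms.
3. For all `C` and `s`, and every continuous finite dimensional complex representation `ρ` of a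
   topological group `G`, the family `LevelFamily C s ρ` is uniformly discrete.
4. For all `C`, `s` and `n` the family `PrimesFamily C s n ρ` is uniformly discrete.
5. For all `c > 0` and all `B`, `s` and `n` the family `BoundedPrimesFamily c B s n ρ` is uniformly
   discrete.
6. For a fixed `e` the condition `Large` is satisfied, with some `C`, as soon as
   `ℓ ≥ c d ^ (1 / 2) (log (2 d)) ^ (3 / 4)`. -/
theorem result :
    (∀ (G : Type u) [Group G] (M : ℕ) (ρ : G →* Matrix (Fin M) (Fin M) ℂ)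
      (Γ : Subgroup G) (k : Type) [Field k] [NumberField k]
      (n s : ℕ) (S : Finset (k →+* ℂ)) (R : Realization ρ Γ k n S), TorsionFree Γ → S.card ≤ s →
      (∀ (I : Ideal (𝓞 k)) (e N : ℕ), 1 < Ideal.absNorm I → UnipotentLevel R I e N →
        EigenvalueBound R s e (Real.log (Ideal.absNorm I) / N)) ∧
      (∀ (P : Finset (Ideal (𝓞 k))) (e : ℕ), P.Nonempty → Exponent P n e →
        EigenvalueBound R s e ((∑ Q ∈ P, Real.log (Ideal.absNorm Q)) / n))) ∧
    (∀ (G : Type u) [Group G] [TopologicalSpace G] (M : ℕ) (ρ : G →* Matrix (Fin M) (Fin M) ℂ),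
      Continuous ρ → ∀ s : ℕ,
      (∀ C : ℝ, UniformlyDiscrete (LevelFamily C s ρ)) ∧
      (∀ (C : ℝ) (n : ℕ), UniformlyDiscrete (PrimesFamily C s n ρ)) ∧
      (∀ (c : ℝ) (B n : ℕ), 0 < c → UniformlyDiscrete (BoundedPrimesFamily c B s n ρ))) ∧
    (∀ (c : ℝ) (e : ℕ), 0 < c → ∃ C : ℝ, ∀ (d : ℕ) (ℓ : ℝ), 0 < d →
      c * (Real.sqrt d * Real.log (2 * d) ^ (3 / 4 : ℝ)) ≤ ℓ → Large C d e ℓ) := by
  -- elements
  have aux : ∀ {G : Type u} [Group G] {M : ℕ} {ρ : G →* Matrix (Fin M) (Fin M) ℂ}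
      {Γ : Subgroup G} {k : Type} [Field k] [NumberField k] {n : ℕ} {S : Finset (k →+* ℂ)}
      (R : Realization ρ Γ k n S) (_ : TorsionFree Γ)
      (γ : Γ), γ ≠ 1 → ∀ N : ℕ, 0 < N → ¬ IsNilpotent (R.r γ ^ N - 1) := by
    intro G _ M ρ Γ k _ _ n S R htf γ hγ N hN h0
    rw [← map_pow] at h0
    have h1 := R.unipotent _ h0
    have h2 : (γ : G) ^ N = 1 := congrArg Subtype.val h1
    exact hγ (Subtype.ext (htf _ γ.2 N hN h2))
  have part1 : ∀ {G : Type u} [Group G] {M : ℕ} {ρ : G →* Matrix (Fin M) (Fin M) ℂ}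
      {Γ : Subgroup G} {k : Type} [Field k] [NumberField k] {n s : ℕ} {S : Finset (k →+* ℂ)}
      (R : Realization ρ Γ k n S), TorsionFree Γ → S.card ≤ s →
      ∀ (I : Ideal (𝓞 k)) (e N : ℕ), 1 < Ideal.absNorm I → UnipotentLevel R I e N →
        EigenvalueBound R s e (Real.log (Ideal.absNorm I) / N) := by
    rintro G _ M ρ Γ k _ _ n s S R htf hs I e N hI ⟨he, hN, hcong⟩ γ hγ
    have hN' : (0 : ℝ) < N := by exact_mod_cast hN
    have hI' : (1 : ℝ) < Ideal.absNorm I := by exact_mod_cast hI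
    obtain ⟨σ, hσ, l, hl, hl1, hlow⟩ := Pool.Agent.D0H86.MG.gap_uni k n s S (R.r γ) hs I e N he hN
      (hcong γ) (div_pos (Real.log_pos hI') hN') ((Group.isUnit γ).map R.r)
      (fun σ hσ l hl => R.comp' _ σ hσ l hl) (aux R htf γ hγ)
    have hl' : IsEig (conjMat σ (R.r γ)) l := hl
    exact ⟨σ, hσ, l, hl', R.eig σ hσ γ l hl', hl1, hlow⟩
  -- primes
  have normP : ∀ {k : Type} [Field k] [NumberField k] (P : Finset (Ideal (𝓞 k))),
      (∀ Q ∈ P, Q.IsPrime ∧ Q ≠ ⊥) →
      (∀ Q ∈ P, 2 ≤ Ideal.absNorm Q) ∧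
      Real.log (Ideal.absNorm (∏ Q ∈ P, Q)) = ∑ Q ∈ P, Real.log (Ideal.absNorm Q) := by
    intro k _ _ P hP
    have h2 : ∀ Q ∈ P, 2 ≤ Ideal.absNorm Q := by
      intro Q hQ
      obtain ⟨h1, h2⟩ := hP Q hQ
      have hne0 : Ideal.absNorm Q ≠ 0 := fun h => h2 (Ideal.absNorm_eq_zero_iff.mp h)
      have hne1 : Ideal.absNorm Q ≠ 1 := fun h => h1.ne_top (Ideal.absNorm_eq_one_iff.mp h)
      omega
    refine ⟨h2, ?_⟩
    rw [map_prod, Nat.cast_prod, Real.log_prod]
    intro Q hQ
    have := h2 Q hQ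
    have h3 : (0 : ℝ) < Ideal.absNorm Q := by exact_mod_cast (by omega : 0 < Ideal.absNorm Q)
    exact h3.ne'
  have uniP : ∀ {G : Type u} [Group G] {M : ℕ} {ρ : G →* Matrix (Fin M) (Fin M) ℂ}
      {Γ : Subgroup G} {k : Type} [Field k] [NumberField k] {n : ℕ} {S : Finset (k →+* ℂ)}
      (R : Realization ρ Γ k n S) (P : Finset (Ideal (𝓞 k))) (e : ℕ), 0 < n → Exponent P n e →
      UnipotentLevel R (∏ Q ∈ P, Q) e n := by
    rintro G _ M ρ Γ k _ _ n S R P e hn ⟨hP, he, hd⟩
    exact ⟨he, hn, fun γ i j => Pool.Agent.D0H86.MG.unipotent_prod P hP (R.r γ)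
      ((Group.isUnit γ).map R.r) e he hd i j⟩
  have npos : ∀ {G : Type u} [Group G] {M : ℕ} {ρ : G →* Matrix (Fin M) (Fin M) ℂ}
      {Γ : Subgroup G} {k : Type} [Field k] [NumberField k] {n : ℕ} {S : Finset (k →+* ℂ)}
      (R : Realization ρ Γ k n S) (γ : Γ), γ ≠ 1 → 0 < n := by
    intro G _ M ρ Γ k _ _ n S R γ hγ
    rcases Nat.eq_zero_or_pos n with h0 | h0
    · exfalso
      subst h0
      apply hγ
      apply R.unipotent
      rw [Subsingleton.elim (R.r γ - 1) 0]
      exact IsNilpotent.zero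
    · exact h0
  -- families
  have fam : ∀ {G : Type u} [Group G] [TopologicalSpace G] {M : ℕ}
      (ρ : G →* Matrix (Fin M) (Fin M) ℂ), Continuous ρ → ∀ (s : ℕ) (C : ℝ),
      UniformlyDiscrete (LevelFamily C s ρ) := by
    intro G _ _ M ρ hρ s C
    obtain ⟨ε, hε, h⟩ := Pool.Agent.D0H86.MG.gap_large C s
    refine ⟨_, nhd ρ hρ ε hε, ?_⟩
    rintro Γ ⟨htf, k, _, _, n, S, R, I, e, N, hs, ⟨he, hN, hcong⟩, h1, h2, h3⟩ g v hv hΓ
    refine final_step' R htf ε hε g v hv hΓ fun hnil => ?_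
    have hunit : IsUnit (R.r ⟨g * v * g⁻¹, hΓ⟩) :=
      (Group.isUnit (⟨g * v * g⁻¹, hΓ⟩ : Γ)).map R.r
    exact h k n S _ I e N hs he hN (hcong _) h1 h2 h3 hunit
      (fun σ hσ l hl => R.comp' _ σ hσ l hl) hnil
  have famP : ∀ {G : Type u} [Group G] [TopologicalSpace G] {M : ℕ}
      (ρ : G →* Matrix (Fin M) (Fin M) ℂ), Continuous ρ → ∀ (s : ℕ) (C : ℝ) (n : ℕ),
      UniformlyDiscrete (PrimesFamily C s n ρ) := by
    intro G _ _ M ρ hρ s C n
    obtain ⟨U, hU, h⟩ := fam ρ hρ s (C * n ^ 4)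
    refine ⟨U, hU, ?_⟩
    rintro Γ ⟨htf, k, _, _, S, R, P, e, hs, hE, h1, h2, h3⟩ g v hv hΓ
    by_contra hne
    have hn : 0 < n := npos R ⟨g * v * g⁻¹, hΓ⟩ (fun h => hne (congrArg Subtype.val h))
    have hn1 : (1 : ℝ) ≤ n := by exact_mod_cast hn
    have hn0 : (0 : ℝ) < n := by linarith
    have he : (0 : ℝ) < e := by exact_mod_cast hE.2.1
    obtain ⟨hnorm, hlog⟩ := normP P hE.1
    set ℓ : ℝ := ∑ Q ∈ P, Real.log (Ideal.absNorm Q) with hℓ
    have hℓ0 : 0 ≤ ℓ := Finset.sum_nonneg fun Q _ => Real.log_natCast_nonneg _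
    have hC : 0 < C := by
      by_contra hC
      push Not at hC
      nlinarith
    have hℓ1 : 0 < ℓ := by
      rcases hℓ0.eq_or_lt with h0 | h0
      · rw [← h0, mul_zero] at h1
        linarith
      · exact h0
    refine hne (h Γ ⟨htf, k, _, _, n, S, R, ∏ Q ∈ P, Q, e, n, hs, uniP R P e hn hE, ?_⟩ g v hv hΓ)
    rw [hlog]
    obtain ⟨g1, g2, g3⟩ := Pool.Agent.D0H86.MG.scale hC hℓ1 hn1
    exact ⟨h1.trans g1, h2.trans g2, h3.trans g3⟩
  have large : ∀ (c : ℝ) (e : ℕ), 0 < c → ∃ C : ℝ, ∀ (d : ℕ) (ℓ : ℝ), 0 < d →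
      c * (Real.sqrt d * Real.log (2 * d) ^ (3 / 4 : ℝ)) ≤ ℓ → Large C d e ℓ :=
    fun c e hc => Pool.Agent.D0H86.MG.large_of c e hc
  refine ⟨?_, ?_, large⟩
  · intro G _ M ρ Γ k _ _ n s S R htf hs
    refine ⟨part1 R htf hs, ?_⟩
    intro P e hPne hE γ hγ
    have hn : 0 < n := npos R γ hγ
    obtain ⟨hnorm, hlog⟩ := normP P hE.1
    have h1 : 1 < Ideal.absNorm (∏ Q ∈ P, Q) := by
      have h2 : 0 < Real.log (Ideal.absNorm (∏ Q ∈ P, Q)) := by
        rw [hlog]
        refine Finset.sum_pos (fun Q hQ => ?_) hPne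
        have := hnorm Q hQ
        exact Real.log_pos (by exact_mod_cast (by omega : 1 < Ideal.absNorm Q))
      by_contra hcon
      push Not at hcon
      have h3 : Real.log (Ideal.absNorm (∏ Q ∈ P, Q)) ≤ 0 :=
        Real.log_nonpos (Nat.cast_nonneg _) (by exact_mod_cast hcon)
      linarith
    have h2 := part1 R htf hs _ e n h1 (uniP R P e hn hE) γ hγ
    rwa [hlog] at h2
  · intro G _ _ M ρ hρ s
    refine ⟨fun C => fam ρ hρ s C, fun C n => famP ρ hρ s C n, ?_⟩
    intro c B n hc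
    have hlog2 : 0 < Real.log 2 := Real.log_pos (by norm_num)
    set e : ℕ := ∏ q ∈ Finset.Icc 2 B, ∏ i ∈ Finset.Icc 1 n, (q ^ i - 1) with he
    have he0 : 0 < e := by
      refine Finset.prod_pos fun q hq => Finset.prod_pos fun i hi => ?_
      have h1 := (Finset.mem_Icc.mp hq).1
      have h2 := (Finset.mem_Icc.mp hi).1
      have h3 : 1 < q ^ i := Nat.one_lt_pow (by omega) (by omega)
      omega
    obtain ⟨C, hC⟩ := large (c * Real.log 2) e (by positivity)
    obtain ⟨U, hU, h⟩ := famP ρ hρ s C n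
    refine ⟨U, hU, ?_⟩
    rintro Γ ⟨htf, k, _, _, S, R, P, hs, hP, hcard⟩ g v hv hΓ
    obtain ⟨hnorm, -⟩ := normP P fun Q hQ => ⟨(hP Q hQ).1, (hP Q hQ).2.1⟩
    refine h Γ ⟨htf, k, _, _, S, R, P, e, hs,
      ⟨fun Q hQ => ⟨(hP Q hQ).1, (hP Q hQ).2.1⟩, he0, ?_⟩, ?_⟩ g v hv hΓ
    · intro Q hQ i hi1 hi2
      refine dvd_trans ?_ (Finset.dvd_prod_of_mem
        (fun q => ∏ i ∈ Finset.Icc 1 n, (q ^ i - 1))
        (Finset.mem_Icc.mpr ⟨hnorm Q hQ, (hP Q hQ).2.2⟩))
      exact Finset.dvd_prod_of_mem (fun i => Ideal.absNorm Q ^ i - 1)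
        (Finset.mem_Icc.mpr ⟨hi1, hi2⟩)
    · refine hC _ _ finrank_pos ?_
      calc c * Real.log 2 * (Real.sqrt (finrank ℚ k) *
            Real.log (2 * finrank ℚ k) ^ (3 / 4 : ℝ))
          = c * (Real.sqrt (finrank ℚ k) * Real.log (2 * finrank ℚ k) ^ (3 / 4 : ℝ)) *
            Real.log 2 := by ring
        _ ≤ P.card * Real.log 2 := mul_le_mul_of_nonneg_right hcard hlog2.le
        _ = ∑ _Q ∈ P, Real.log 2 := by rw [Finset.sum_const, nsmul_eq_mul]
        _ ≤ ∑ Q ∈ P, Real.log (Ideal.absNorm Q) := by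
            refine Finset.sum_le_sum fun Q hQ => ?_
            exact Real.log_le_log two_pos (by exact_mod_cast hnorm Q hQ)

end Pool.Agent.Results.MP_162bbe_gt.UnipotentReduction
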